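import Mathlib

set_option autoImplicit false

/-!
# Binary-submodular expressibility and the cone of fans: definitions
-/

namespace Pool.Agent.R547.Fans

/-- The cube `{0,1}^k` with the coordinatewise order, `⊓` and `⊔` (`false` is `0`, `true` is
`1`). -/
abbrev B (k : ℕ) : Type := Fin k → Bool

/-- `f` is submodular. -/
def Submodular {k : ℕ} (f : B k → ℝ) : Prop := ∀ u v : B k, f (u ⊓ v) + f (u ⊔ v) ≤ f u + f v

/-- `f` is expressible by binary submodular functions: up to a constant it is the minimum, over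
the values of `j` further variables `y`, of a nonnegative combination of binary submodular
functions `g i`, applied to pairs `(z i, z' i)` of variables. -/
def Expressible {n : ℕ} (f : B n → ℝ) : Prop :=
  ∃ (j t : ℕ) (g : Fin t → B 2 → ℝ) (α : Fin t → ℝ) (z z' : Fin t → Fin n ⊕ Fin j) (κ : ℝ),
    (∀ i, Submodular (g i)) ∧ (∀ i, 0 ≤ α i) ∧
    ∀ x : B n, IsLeast
      (Set.range fun y : B j =>
        ∑ i, α i * g i ![Sum.elim x y (z i), Sum.elim x y (z' i)] + κ) (f x)

/-- `φ` is an upper fan: for a finite set `A` of pairwise incomparable elements any two of which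
have the join `⋁ A`, the value is `-2` above `⋁ A`, `-1` at the other points above an element of
`A`, and `0` elsewhere. -/
def IsUpperFan {k : ℕ} (φ : B k → ℝ) : Prop :=
  ∃ A : Finset (B k), (∀ a ∈ A, ∀ b ∈ A, a ≠ b → ¬ a ≤ b ∧ a ⊔ b = A.sup id) ∧
    ∀ x, φ x = open Classical in
      if A.sup id ≤ x then -2 else if ∃ a ∈ A, a ≤ x then -1 else 0

/-- `φ` is a lower fan (the dual notion). -/
def IsLowerFan {k : ℕ} (φ : B k → ℝ) : Prop :=
  ∃ A : Finset (B k), (∀ a ∈ A, ∀ b ∈ A, a ≠ b → ¬ a ≤ b ∧ a ⊓ b = A.inf id) ∧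
    ∀ x, φ x = open Classical in
      if x ≤ A.inf id then -2 else if ∃ a ∈ A, x ≤ a then -1 else 0

/-- `f` is, up to a constant, a finite nonnegative combination of fans. -/
def InFanCone {k : ℕ} (f : B k → ℝ) : Prop :=
  ∃ (t : ℕ) (φ : Fin t → B k → ℝ) (c : Fin t → ℝ) (κ : ℝ),
    (∀ i, IsUpperFan (φ i) ∨ IsLowerFan (φ i)) ∧ (∀ i, 0 ≤ c i) ∧
    ∀ x, f x = ∑ i, c i * φ i x + κ

end Pool.Agent.R547.Fans
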