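import Pool.Agent.R547.Fans.Tables

set_option autoImplicit false
set_option maxRecDepth 100000

/-!
# The separation
-/

namespace Pool.Agent.R547.Fans

/-- The index set of the 5-cube. -/
abbrev P5 : Type := Bool × Bool × Bool × Bool × Bool

/-- The point of the 5-cube. -/
def mk (p : P5) : B 5 := ![p.1, p.2.1, p.2.2.1, p.2.2.2.1, p.2.2.2.2]

theorem T_eq : ∀ a : B 5, ∑ p : P5, (if (∀ i, a i = true → mk p i = true) then L (mk p) else 0) =
    T a := by
  apply forall_B5
  decide

theorem T_eq' : ∀ a : B 5, ∑ p : P5, (if (∀ i, mk p i = true → a i = true) then L (mk p) else 0) =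
    T (fun i => !a i) := by
  apply forall_B5
  decide

theorem L_sum : ∑ p : P5, L (mk p) = 0 := by decide

theorem LF_sum : ∑ p : P5, L (mk p) * F (mk p) = 4 := by decide

theorem F_sub : ∀ u v : B 5, F (u ⊓ v) + F (u ⊔ v) ≤ F u + F v := by
  apply forall_B5
  intro u0 u1 u2 u3 u4
  apply forall_B5
  revert u0 u1 u2 u3 u4
  decide

/-- The key inequality. -/
theorem core {ι : Type} (A : Finset ι) (u : B 5) (s : ι → B 5)
    (h1 : ∀ a ∈ A, ∀ i, s a i = true → u i = true)
    (h2 : ∀ a ∈ A, ∀ b ∈ A, a ≠ b → ∀ i, u i = true → s a i = true ∨ s b i = true) :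
    ∑ a ∈ A, (T u - T (s a)) ≤ 2 * T u := by
  classical
  have h3 : ∑ a ∈ A, 2 * (T u - T (s a)) ≤
      ∑ a ∈ A, ∑ i, (if u i = true ∧ s a i = false then W u i else 0) :=
    Finset.sum_le_sum (fun a ha => W_cover u (s a) (h1 a ha))
  have h4 : ∑ a ∈ A, ∑ i, (if u i = true ∧ s a i = false then W u i else 0) ≤
      ∑ i, (if u i = true then W u i else 0) := by
    rw [Finset.sum_comm]
    refine Finset.sum_le_sum (fun i _ => ?_)
    by_cases hi : u i = true
    · simp only [hi, true_and, if_true]
      rw [← Finset.sum_filter]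
      have hc : (A.filter (fun a => s a i = false)).card ≤ 1 := by
        rw [Finset.card_le_one]
        intro a ha b hb
        by_contra hne
        have ha' := Finset.mem_filter.1 ha
        have hb' := Finset.mem_filter.1 hb
        rcases h2 a ha'.1 b hb'.1 hne i hi with h | h
        · rw [ha'.2] at h; exact Bool.noConfusion h
        · rw [hb'.2] at h; exact Bool.noConfusion h
      rw [Finset.sum_const, nsmul_eq_mul]
      have hw := W_nonneg u i
      have hc' : ((A.filter (fun a => s a i = false)).card : ℤ) ≤ 1 := by exact_mod_cast hc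
      nlinarith
    · simp [hi]
  have h5 := W_sum u
  rw [← Finset.mul_sum] at h3
  linarith

/-- The value of the separating functional. -/
noncomputable def Lam (φ : B 5 → ℝ) : ℝ := ∑ p : P5, (L (mk p) : ℝ) * φ (mk p)

theorem Lam_const (κ : ℝ) : Lam (fun _ => κ) = 0 := by
  unfold Lam
  rw [← Finset.sum_mul, ← Int.cast_sum, L_sum]
  simp

theorem Lam_F : Lam (fun x => (F x : ℝ)) = 4 := by
  unfold Lam
  have := LF_sum
  have h2 : (∑ p : P5, (L (mk p) : ℝ) * (F (mk p) : ℝ)) =
      ((∑ p : P5, L (mk p) * F (mk p) : ℤ) : ℝ) := by push_cast; rfl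
  rw [h2, this]
  norm_num

open Classical in
theorem Lam_up (a : B 5) :
    Lam (fun x => if (∀ i, a i = true → x i = true) then 1 else 0) = T a := by
  unfold Lam
  rw [← T_eq a]
  push_cast
  refine Finset.sum_congr rfl (fun p _ => ?_)
  by_cases h : ∀ i, a i = true → mk p i = true
  · rw [if_pos h, if_pos h, mul_one]
  · rw [if_neg h, if_neg h, mul_zero]

open Classical in
theorem Lam_down (a : B 5) :
    Lam (fun x => if (∀ i, x i = true → a i = true) then 1 else 0) = T (fun i => !a i) := by
  unfold Lam
  rw [← T_eq' a]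
  push_cast
  refine Finset.sum_congr rfl (fun p _ => ?_)
  by_cases h : ∀ i, mk p i = true → a i = true
  · rw [if_pos h, if_pos h, mul_one]
  · rw [if_neg h, if_neg h, mul_zero]

theorem Lam_congr (φ ψ : B 5 → ℝ) (h : ∀ x, φ x = ψ x) : Lam φ = Lam ψ := by
  rw [funext h]

theorem Lam_combo {ι : Type} (A : Finset ι) (φ : ι → B 5 → ℝ) (c : ι → ℝ) (κ : ℝ) :
    Lam (fun x => ∑ i ∈ A, c i * φ i x + κ) = ∑ i ∈ A, c i * Lam (φ i) := by
  have h0 := Lam_const κ
  unfold Lam at h0 ⊢
  simp_rw [mul_add]
  rw [Finset.sum_add_distrib, h0, add_zero]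
  simp_rw [Finset.mul_sum]
  rw [Finset.sum_comm]
  refine Finset.sum_congr rfl (fun i _ => Finset.sum_congr rfl (fun p _ => ?_))
  ring

section

variable {k : ℕ} (hk : 5 ≤ k)

/-- Restriction to the first five coordinates. -/
def r (x : B k) : B 5 := fun i => x (Fin.castLE hk i)

/-- Extension by zero. -/
def ex (y : B 5) : B k := fun j => if h : (j : ℕ) < 5 then y ⟨j, h⟩ else false

theorem r_ex (y : B 5) : r hk (ex y) = y := by
  ext i
  unfold r ex
  simp

theorem ex_le (y : B 5) (a : B k) :
    ex y ≤ a ↔ ∀ i, y i = true → r hk a i = true := by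
  constructor
  · intro h i hi
    have h1 := h (Fin.castLE hk i)
    have h2 : (ex y : B k) (Fin.castLE hk i) = true := by
      unfold ex
      simp [hi]
    rw [h2] at h1
    exact top_le_iff.1 h1
  · intro h j
    by_cases hj : (j : ℕ) < 5
    · have h3 : (ex y : B k) j = y ⟨j, hj⟩ := by unfold ex; simp [hj]
      rw [h3]
      by_cases h4 : y ⟨j, hj⟩ = true
      · have h5 := h _ h4
        have h6 : r hk a ⟨j, hj⟩ = a j := rfl
        rw [← h6, h5]
        exact Bool.le_true _
      · rw [Bool.not_eq_true] at h4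
        rw [h4]
        exact Bool.false_le _
    · have h3 : (ex y : B k) j = false := by unfold ex; simp [hj]
      rw [h3]
      exact Bool.false_le _

theorem le_ex (y : B 5) (a : B k) :
    a ≤ ex y ↔ (∀ j : Fin k, 5 ≤ (j : ℕ) → a j = false) ∧ ∀ i, r hk a i = true → y i = true := by
  constructor
  · intro h
    refine ⟨fun j hj => ?_, fun i hi => ?_⟩
    · have h1 := h j
      have h3 : (ex y : B k) j = false := by unfold ex; simp [Nat.not_lt.2 hj]
      rw [h3] at h1
      exact le_bot_iff.1 h1
    · have h1 := h (Fin.castLE hk i)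
      have h2 : (ex y : B k) (Fin.castLE hk i) = y i := by
        unfold ex
        simp
      rw [h2] at h1
      have h4 : a (Fin.castLE hk i) = true := hi
      rw [h4] at h1
      exact top_le_iff.1 h1
  · rintro ⟨h0, h⟩ j
    by_cases hj : (j : ℕ) < 5
    · have h3 : (ex y : B k) j = y ⟨j, hj⟩ := by unfold ex; simp [hj]
      rw [h3]
      by_cases h4 : a j = true
      · have h5 := h ⟨j, hj⟩ h4
        rw [h5]
        exact Bool.le_true _
      · rw [Bool.not_eq_true] at h4
        rw [h4]
        exact Bool.false_le _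
    · rw [h0 j (Nat.not_lt.1 hj)]
      exact Bool.false_le _

open Classical in
/-- The functional of the indicator of an upper set. -/
theorem Lam_up_k (a : B k) :
    Lam (fun y => if a ≤ ex y then 1 else 0) =
      if (∀ j : Fin k, 5 ≤ (j : ℕ) → a j = false) then (T (r hk a) : ℝ) else 0 := by
  by_cases h : ∀ j : Fin k, 5 ≤ (j : ℕ) → a j = false
  · rw [if_pos h, ← Lam_up]
    apply Lam_congr
    intro y
    by_cases h' : ∀ i, r hk a i = true → y i = true
    · rw [if_pos h', if_pos ((le_ex hk y a).2 ⟨h, h'⟩)]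
    · rw [if_neg h', if_neg (fun h2 => h' ((le_ex hk y a).1 h2).2)]
  · rw [if_neg h]
    refine (Lam_congr _ (fun _ => 0) ?_).trans (Lam_const 0)
    intro y
    rw [if_neg (fun h2 => h ((le_ex hk y a).1 h2).1)]

open Classical in
/-- The functional of the indicator of a lower set. -/
theorem Lam_down_k (a : B k) :
    Lam (fun y => if ex y ≤ a then 1 else 0) = (T (fun i => !(r hk a i)) : ℝ) := by
  rw [← Lam_down]
  apply Lam_congr
  intro y
  by_cases h' : ∀ i, y i = true → r hk a i = true
  · rw [if_pos h', if_pos ((ex_le hk y a).2 h')]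
  · rw [if_neg h', if_neg (fun h2 => h' ((ex_le hk y a).1 h2))]

open Classical in
theorem upper_formula {A : Finset (B k)}
    (hA : ∀ a ∈ A, ∀ b ∈ A, a ≠ b → ¬ a ≤ b ∧ a ⊔ b = A.sup id) (x : B k) :
    (if A.sup id ≤ x then (-2 : ℝ) else if ∃ a ∈ A, a ≤ x then -1 else 0) =
      ∑ a ∈ A, (-1) * (if a ≤ x then (1 : ℝ) else 0) +
        ((A.card : ℝ) - 2) * (if A.sup id ≤ x then (1 : ℝ) else 0) := by
  rw [← Finset.mul_sum, ← Finset.sum_filter, Finset.sum_const, nsmul_eq_mul]
  by_cases h : A.sup id ≤ x
  · rw [if_pos h, if_pos h]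
    have h1 : A.filter (fun a => a ≤ x) = A := by
      apply Finset.filter_true_of_mem
      intro a ha
      exact (Finset.le_sup (f := id) ha).trans h
    rw [h1]; ring
  · rw [if_neg h, if_neg h]
    by_cases h2 : ∃ a ∈ A, a ≤ x
    · rw [if_pos h2]
      obtain ⟨a, ha, hax⟩ := h2
      have h3 : A.filter (fun a => a ≤ x) = {a} := by
        ext b
        rw [Finset.mem_filter, Finset.mem_singleton]
        constructor
        · rintro ⟨hb, hbx⟩
          by_contra hne'
          have := (hA b hb a ha hne').2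
          exact h (this ▸ sup_le hbx hax)
        · rintro rfl
          exact ⟨ha, hax⟩
      rw [h3]; simp
    · rw [if_neg h2]
      have h3 : A.filter (fun a => a ≤ x) = ∅ := by
        apply Finset.filter_false_of_mem
        intro a ha hax
        exact h2 ⟨a, ha, hax⟩
      rw [h3]; simp

open Classical in
theorem lower_formula {A : Finset (B k)}
    (hA : ∀ a ∈ A, ∀ b ∈ A, a ≠ b → ¬ a ≤ b ∧ a ⊓ b = A.inf id) (x : B k) :
    (if x ≤ A.inf id then (-2 : ℝ) else if ∃ a ∈ A, x ≤ a then -1 else 0) =
      ∑ a ∈ A, (-1) * (if x ≤ a then (1 : ℝ) else 0) +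
        ((A.card : ℝ) - 2) * (if x ≤ A.inf id then (1 : ℝ) else 0) := by
  rw [← Finset.mul_sum, ← Finset.sum_filter, Finset.sum_const, nsmul_eq_mul]
  by_cases h : x ≤ A.inf id
  · rw [if_pos h, if_pos h]
    have h1 : A.filter (fun a => x ≤ a) = A := by
      apply Finset.filter_true_of_mem
      intro a ha
      exact h.trans (Finset.inf_le (f := id) ha)
    rw [h1]; ring
  · rw [if_neg h, if_neg h]
    by_cases h2 : ∃ a ∈ A, x ≤ a
    · rw [if_pos h2]
      obtain ⟨a, ha, hax⟩ := h2
      have h3 : A.filter (fun a => x ≤ a) = {a} := by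
        ext b
        rw [Finset.mem_filter, Finset.mem_singleton]
        constructor
        · rintro ⟨hb, hbx⟩
          by_contra hne'
          have := (hA b hb a ha hne').2
          exact h (this ▸ le_inf hbx hax)
        · rintro rfl
          exact ⟨ha, hax⟩
      rw [h3]; simp
    · rw [if_neg h2]
      have h3 : A.filter (fun a => x ≤ a) = ∅ := by
        apply Finset.filter_false_of_mem
        intro a ha hax
        exact h2 ⟨a, ha, hax⟩
      rw [h3]; simp

include hk in
/-- The functional is nonpositive on the upper fans. -/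
theorem Lam_upper (φ : B k → ℝ) (hφ : IsUpperFan φ) : Lam (fun y => φ (ex y)) ≤ 0 := by
  classical
  obtain ⟨A, hA, hval⟩ := hφ
  by_cases hne : A.Nonempty
  swap
  · rw [Finset.not_nonempty_iff_eq_empty] at hne
    subst hne
    rw [Lam_congr _ (fun _ => (-2 : ℝ)), Lam_const]
    intro y
    rw [hval]
    simp
  have h1 : Lam (fun y => φ (ex y)) =
      ∑ a ∈ A, (-1) * Lam (fun y => if a ≤ ex y then (1 : ℝ) else 0) +
        ((A.card : ℝ) - 2) * Lam (fun y => if A.sup id ≤ ex y then (1 : ℝ) else 0) := by
    have h2 : ∀ y : B 5, φ (ex y) =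
        ∑ o ∈ A.map ⟨some, Option.some_injective _⟩ ∪ {none},
          (o.elim ((A.card : ℝ) - 2) (fun _ => -1)) *
            (o.elim (if A.sup id ≤ ex y then (1 : ℝ) else 0)
              (fun a => if a ≤ ex y then (1 : ℝ) else 0)) + 0 := by
      intro y
      rw [hval, Finset.sum_union (by simp), Finset.sum_map, Finset.sum_singleton, add_zero]
      have := upper_formula hA (ex y)
      simp only [Function.Embedding.coeFn_mk, Option.elim_some, Option.elim_none]
      exact this
    rw [Lam_congr _ _ h2, Lam_combo, Finset.sum_union (by simp), Finset.sum_map,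
      Finset.sum_singleton]
    simp
  rw [h1]
  simp_rw [Lam_up_k hk]
  by_cases hu : ∀ j : Fin k, 5 ≤ (j : ℕ) → (A.sup id) j = false
  · have hle : ∀ a ∈ A, ∀ j, a j = true → (A.sup id) j = true := by
      intro a ha j hj
      have := (Finset.le_sup (f := id) ha : id a ≤ A.sup id) j
      simp only [id] at this
      rw [hj] at this
      exact top_le_iff.1 this
    have ha0 : ∀ a ∈ A, ∀ j : Fin k, 5 ≤ (j : ℕ) → a j = false := by
      intro a ha j hj
      by_contra hcon
      rw [Bool.not_eq_false] at hcon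
      have := hle a ha j hcon
      rw [hu j hj] at this
      exact Bool.noConfusion this
    have hcore := core A (r hk (A.sup id)) (fun a => r hk a)
      (fun a ha i hi => hle a ha _ hi)
      (by
        intro a ha b hb hne' i hi
        have h3 := (hA a ha b hb hne').2
        have h4 : (a ⊔ b) (Fin.castLE hk i) = true := by rw [h3]; exact hi
        rw [Pi.sup_apply] at h4
        by_contra hcon
        push Not at hcon
        have h7 : b (Fin.castLE hk i) = false := Bool.eq_false_of_not_eq_true hcon.2
        have h8 : a (Fin.castLE hk i) = false := Bool.eq_false_of_not_eq_true hcon.1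
        rw [h7, h8] at h4
        exact Bool.noConfusion h4)
    have h5 : ∑ a ∈ A, (-1 : ℝ) * (if (∀ j : Fin k, 5 ≤ (j : ℕ) → a j = false)
        then (T (r hk a) : ℝ) else 0) = ∑ a ∈ A, (-1 : ℝ) * (T (r hk a) : ℝ) :=
      Finset.sum_congr rfl (fun a ha => by rw [if_pos (ha0 a ha)])
    rw [h5, if_pos hu]
    have h6 : ((∑ a ∈ A, (T (r hk (A.sup id)) - T (r hk a)) : ℤ) : ℝ) ≤
        ((2 * T (r hk (A.sup id)) : ℤ) : ℝ) := by exact_mod_cast hcore
    push_cast at h6
    rw [Finset.sum_sub_distrib, Finset.sum_const, nsmul_eq_mul] at h6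
    rw [← Finset.mul_sum]
    linarith
  · rw [if_neg hu, mul_zero, add_zero]
    apply Finset.sum_nonpos
    intro a _
    have h7 : (0 : ℝ) ≤ (T (r hk a) : ℝ) := by exact_mod_cast T_nonneg _
    split_ifs
    · linarith
    · simp

include hk in
/-- The functional is nonpositive on the lower fans. -/
theorem Lam_lower (φ : B k → ℝ) (hφ : IsLowerFan φ) : Lam (fun y => φ (ex y)) ≤ 0 := by
  classical
  obtain ⟨A, hA, hval⟩ := hφ
  by_cases hne : A.Nonempty
  swap
  · rw [Finset.not_nonempty_iff_eq_empty] at hne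
    subst hne
    rw [Lam_congr _ (fun _ => (-2 : ℝ)), Lam_const]
    intro y
    rw [hval]
    simp
  have h1 : Lam (fun y => φ (ex y)) =
      ∑ a ∈ A, (-1) * Lam (fun y => if ex y ≤ a then (1 : ℝ) else 0) +
        ((A.card : ℝ) - 2) * Lam (fun y => if ex y ≤ A.inf id then (1 : ℝ) else 0) := by
    have h2 : ∀ y : B 5, φ (ex y) =
        ∑ o ∈ A.map ⟨some, Option.some_injective _⟩ ∪ {none},
          (o.elim ((A.card : ℝ) - 2) (fun _ => -1)) *
            (o.elim (if ex y ≤ A.inf id then (1 : ℝ) else 0)
              (fun a => if ex y ≤ a then (1 : ℝ) else 0)) + 0 := by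
      intro y
      rw [hval, Finset.sum_union (by simp), Finset.sum_map, Finset.sum_singleton, add_zero]
      have := lower_formula hA (ex y)
      simp only [Function.Embedding.coeFn_mk, Option.elim_some, Option.elim_none]
      exact this
    rw [Lam_congr _ _ h2, Lam_combo, Finset.sum_union (by simp), Finset.sum_map,
      Finset.sum_singleton]
    simp
  rw [h1]
  simp_rw [Lam_down_k hk]
  have hle : ∀ a ∈ A, ∀ j, (A.inf id) j = true → a j = true := by
    intro a ha j hj
    have := (Finset.inf_le (f := id) ha : A.inf id ≤ id a) j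
    simp only [id] at this
    rw [hj] at this
    exact top_le_iff.1 this
  have hcore := core A (fun i => !(r hk (A.inf id) i)) (fun a i => !(r hk a i))
    (by
      intro a ha i hi
      rw [Bool.not_eq_true'] at hi ⊢
      by_contra hcon
      rw [Bool.not_eq_false] at hcon
      have := hle a ha _ hcon
      exact Bool.noConfusion (hi.symm.trans this))
    (by
      intro a ha b hb hne' i hi
      have h3 := (hA a ha b hb hne').2
      rw [Bool.not_eq_true'] at hi
      have h4 : (a ⊓ b) (Fin.castLE hk i) = false := by rw [h3]; exact hi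
      rw [Pi.inf_apply] at h4
      simp only [Bool.not_eq_true']
      by_contra hcon
      push Not at hcon
      have h8 : a (Fin.castLE hk i) = true := by
        have := hcon.1
        rwa [ne_eq, Bool.not_eq_false] at this
      have h7 : b (Fin.castLE hk i) = true := by
        have := hcon.2
        rwa [ne_eq, Bool.not_eq_false] at this
      rw [h7, h8] at h4
      exact Bool.noConfusion h4)
  have h6 : ((∑ a ∈ A, (T (fun i => !(r hk (A.inf id) i)) - T (fun i => !(r hk a i))) : ℤ) : ℝ) ≤
      ((2 * T (fun i => !(r hk (A.inf id) i)) : ℤ) : ℝ) := by exact_mod_cast hcore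
  push_cast at h6
  rw [Finset.sum_sub_distrib, Finset.sum_const, nsmul_eq_mul] at h6
  rw [← Finset.mul_sum]
  linarith

/-- The function which is not in the cone. -/
def fn (x : B k) : ℝ := (F (r hk x) : ℝ)

theorem not_in_cone : ¬ InFanCone (fn hk) := by
  rintro ⟨t, φ, c, κ, hφ, hc, hval⟩
  have h1 : Lam (fun y => fn hk (ex y)) = 4 := by
    rw [← Lam_F]
    apply Lam_congr
    intro y
    unfold fn
    rw [r_ex]
  have h2 : Lam (fun y => fn hk (ex y)) = ∑ i, c i * Lam (fun y => φ i (ex y)) := by
    rw [← Lam_combo Finset.univ (fun i y => φ i (ex y)) c κ]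
    exact Lam_congr _ _ (fun y => hval (ex y))
  have h3 : ∑ i, c i * Lam (fun y => φ i (ex y)) ≤ 0 := by
    apply Finset.sum_nonpos
    intro i _
    have h4 : Lam (fun y => φ i (ex y)) ≤ 0 := by
      rcases hφ i with h | h
      · exact Lam_upper hk _ h
      · exact Lam_lower hk _ h
    exact mul_nonpos_of_nonneg_of_nonpos (hc i) h4
  linarith

theorem fn_submodular : Submodular (fn hk) := by
  intro u v
  unfold fn
  have h := F_sub (r hk u) (r hk v)
  have h1 : r hk (u ⊓ v) = r hk u ⊓ r hk v := rfl
  have h2 : r hk (u ⊔ v) = r hk u ⊔ r hk v := rfl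
  rw [h1, h2]
  exact_mod_cast h

/-- The binary functions. -/
def G (i : Fin 5) (v : B 2) : ℤ :=
  if v 1 = true then (if i = 0 then 3 else 0) - (if v 0 = true then (if i = 0 then 2 else 1) else 0)
  else 0

theorem forall_B2 (P : B 2 → Prop) (h : ∀ a b : Bool, P ![a, b]) : ∀ y, P y := by
  intro y
  have : y = ![y 0, y 1] := by
    ext i; fin_cases i <;> rfl
  rw [this]
  exact h _ _

theorem G_sub (i : Fin 5) : ∀ u v : B 2, G i (u ⊓ v) + G i (u ⊔ v) ≤ G i u + G i v := by
  apply forall_B2
  intro a b
  apply forall_B2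
  revert a b i
  decide

theorem G_sum (x : B 5) (b : Bool) :
    ∑ i, G i ![x i, b] = if b = true then 3 - 2 * ((x 0).toNat : ℤ) - (cnt x : ℤ) else 0 := by
  revert b
  revert x
  apply forall_B5
  decide

theorem fn_expressible : Expressible (fn hk) := by
  refine ⟨1, 5, fun i v => (G i v : ℝ), fun _ => 1, fun i => Sum.inl (Fin.castLE hk i),
    fun _ => Sum.inr 0, 0, ?_, fun _ => zero_le_one, ?_⟩
  · intro i u v
    have := G_sub i u v
    simp only
    exact_mod_cast this
  · intro x
    have h1 : ∀ y : B 1, (∑ i : Fin 5, (1 : ℝ) * ((G i ![Sum.elim x y (Sum.inl (Fin.castLE hk i)),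
        Sum.elim x y (Sum.inr 0)] : ℤ) : ℝ) + 0) =
        ((if y 0 = true then 3 - 2 * ((r hk x 0).toNat : ℤ) - (cnt (r hk x) : ℤ) else 0 : ℤ) : ℝ) := by
      intro y
      rw [← G_sum (r hk x) (y 0)]
      push_cast
      rw [add_zero]
      refine Finset.sum_congr rfl (fun i _ => ?_)
      rw [one_mul]
      rfl
    constructor
    · by_cases h : 0 ≤ 3 - 2 * ((r hk x 0).toNat : ℤ) - (cnt (r hk x) : ℤ)
      · refine ⟨fun _ => false, ?_⟩
        simp only
        rw [h1]
        unfold fn F
        rw [min_eq_left h]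
        simp
      · refine ⟨fun _ => true, ?_⟩
        simp only
        rw [h1]
        unfold fn F
        rw [min_eq_right (le_of_lt (not_le.1 h))]
        simp
    · rintro z ⟨y, rfl⟩
      simp only
      rw [h1]
      unfold fn F
      by_cases hy : y 0 = true
      · rw [if_pos hy]
        exact_mod_cast min_le_right _ _
      · rw [if_neg hy]
        exact_mod_cast min_le_left _ _

end

end Pool.Agent.R547.Fans
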