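import Pool.Agent.R547.Fans.Defs

set_option autoImplicit false
set_option maxRecDepth 100000

/-!
# The certificate on the 5-cube
-/

namespace Pool.Agent.R547.Fans

/-- The number of ones among the last four coordinates. -/
def cnt (y : B 5) : ℕ := (y 1).toNat + (y 2).toNat + (y 3).toNat + (y 4).toNat

/-- The separating functional. -/
def L (y : B 5) : ℤ :=
  match y 0, cnt y with
  | true, 0 => -2
  | true, 1 => 2
  | true, 2 => -1
  | true, 3 => -1
  | true, _ => 4
  | false, 0 => 4
  | false, 1 => -1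
  | false, 2 => -1
  | false, 3 => 2
  | false, _ => -2

/-- The sums of `L` over the upper sets. -/
def T (y : B 5) : ℤ :=
  match y 0, cnt y with
  | true, 0 => 0
  | true, 1 => 0
  | true, 2 => 1
  | true, 3 => 3
  | true, _ => 4
  | false, 0 => 0
  | false, 1 => 0
  | false, 2 => 2
  | false, 3 => 3
  | false, _ => 2

/-- Weights. -/
def W (u : B 5) (i : Fin 5) : ℤ :=
  match u 0, cnt u with
  | true, 0 => 0
  | true, 1 => 0
  | true, 2 => if i = 0 then 0 else 2
  | true, 3 => if i = 0 then 0 else 4
  | true, _ => if i = 0 then 4 else 3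
  | false, 0 => 0
  | false, 1 => 0
  | false, 2 => 4
  | false, 3 => 4
  | false, _ => 2

/-- The function which is not in the cone. -/
def F (y : B 5) : ℤ :=
  min 0 (3 - 2 * ((y 0).toNat : ℤ) - (cnt y : ℤ))

theorem forall_B5 (P : B 5 → Prop) (h : ∀ a b c d e : Bool, P ![a, b, c, d, e]) :
    ∀ y, P y := by
  intro y
  have : y = ![y 0, y 1, y 2, y 3, y 4] := by
    ext i; fin_cases i <;> rfl
  rw [this]
  exact h _ _ _ _ _

theorem T_nonneg : ∀ a : B 5, 0 ≤ T a := by
  apply forall_B5
  decide

theorem W_nonneg : ∀ u : B 5, ∀ i, 0 ≤ W u i := by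
  apply forall_B5
  decide

theorem W_sum : ∀ u : B 5, ∑ i, (if u i = true then W u i else 0) ≤ 4 * T u := by
  apply forall_B5
  decide

theorem W_cover : ∀ u a : B 5, (∀ i, a i = true → u i = true) →
    2 * (T u - T a) ≤ ∑ i, (if u i = true ∧ a i = false then W u i else 0) := by
  apply forall_B5
  intro u0 u1 u2 u3 u4
  apply forall_B5
  revert u0 u1 u2 u3 u4
  decide

end Pool.Agent.R547.Fans
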